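import Pool.Agent.helper58.DC.Spec4

set_option autoImplicit false

open Pool.Agent Pool.Agent.helper58.DC

namespace Pool.Agent.helper24.DZ

theorem BT_val {T : Type} (S : Finset T) (p : ℕ) [Fact p.Prime] (n : T → ℕ)
    (hn : ∀ t, n t ≠ 0) : padicValNat p (∏ t ∈ S, n t) = ∑ t ∈ S, padicValNat p (n t) := by
  classical
  induction S using Finset.induction_on with
  | empty => simp
  | insert a S ha ih =>
    rw [Finset.prod_insert ha, Finset.sum_insert ha,
      padicValNat.mul (hn a) (Finset.prod_ne_zero_iff.mpr fun t _ => hn t), ih]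

theorem BT_card (G T : Type) [Group G] [Finite G] [Fintype T] :
    Nat.card (⊤ : Subgroup (T → G)) = Nat.card (⊤ : Subgroup G) ^ Fintype.card T := by
  rw [Subgroup.card_top, Subgroup.card_top, Nat.card_fun, Nat.card_eq_fintype_card (α := T)]

theorem BT (hTI : TI_stmt) (hIF : IF_stmt) (hIRP : IRP_stmt) (hIRC : IRC_stmt)
    (hIP : IP_stmt) : BT_stmt := by
  classical
  intro G T _ _ _ p hp M χ hχ D hD
  have : Fact p.Prime := ⟨hp⟩
  have hG : Nat.card (⊤ : Subgroup G) ≠ 0 := Nat.card_pos.ne'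
  obtain ⟨⟨ψ, hψ, hψχ, hψD⟩, hmax⟩ := hD
  have hIP' := fun (ψ' : T → G → ℂ) (h : ∀ t, ψ' t ∈ Irr G) =>
    hIP G T M (fun _ => ⊤) ψ' (fun _ => χ) (fun t => (hTI G (ψ' t)).mpr (h t)) (fun _ => hχ)
  refine ⟨⟨tens fun _ : T => ψ, ?_, ?_, ?_⟩, ?_⟩
  · exact hIRP T (fun _ => G) (fun _ => ψ) fun _ => hψ
  · exact (hIP' (fun _ => ψ) fun _ => hψ).mpr fun _ => hψχ
  · obtain ⟨n, hn, hd⟩ := hψD
    refine ⟨n ^ Fintype.card T, ?_, ?_⟩
    · change ∏ t : T, ψ ((1 : T → G) t) = _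
      simp only [Pi.one_apply, hn, Finset.prod_const, Finset.card_univ]
      push_cast
      rfl
    · have hn0 : n ≠ 0 := by
        rintro rfl
        obtain ⟨m, hm, hm'⟩ := ((hIF G ⊤).2 ψ ((hTI G ψ).mpr hψ)).1
        rw [hn] at hm'
        have : (0 : ℕ) = m := by exact_mod_cast hm'
        omega
      rw [BT_card, padicValNat.pow, padicValNat.pow, Nat.cast_mul, Nat.cast_mul, Nat.cast_mul, hd]
      ring
  · rintro d ⟨θ, hθ, hθχ, n, hn, hd⟩
    obtain ⟨φ, hφ, rfl⟩ := hIRC T (fun _ => G) θ hθ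
    have h1 := (hIP' φ hφ).mp hθχ
    have h2 : ∀ t, ∃ m : ℕ, 0 < m ∧ φ t 1 = m := fun t =>
      ((hIF G ⊤).2 (φ t) ((hTI G (φ t)).mpr (hφ t))).1
    choose m hm hm' using h2
    have h3 : n = ∏ t, m t := by
      have h4 : (n : ℂ) = ∏ t, (m t : ℂ) := by
        rw [← hn]
        exact Finset.prod_congr rfl fun t _ => hm' t
      exact_mod_cast h4
    have h5 : ∀ t, (padicValNat p (Nat.card (⊤ : Subgroup G)) : ℤ) - padicValNat p (m t) ≤ D :=
      fun t => hmax ⟨φ t, hφ t, h1 t, m t, hm' t, rfl⟩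
    rw [hd, BT_card, padicValNat.pow, h3, BT_val _ p m fun t => (hm t).ne']
    have h6 := Finset.sum_le_sum fun t (_ : t ∈ (Finset.univ : Finset T)) => h5 t
    rw [Finset.sum_sub_distrib, Finset.sum_const, Finset.sum_const, Finset.card_univ] at h6
    simp only [nsmul_eq_mul] at h6
    rw [Nat.cast_mul, Nat.cast_mul, Nat.cast_sum]
    exact h6

end Pool.Agent.helper24.DZ
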