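import Pool.Agent.helper58.DC.Spec4

set_option autoImplicit false

open Pool.Agent Pool.Agent.helper58.DC

namespace Pool.Agent.helper24.DZ

theorem KS_mem {G : Type} [Group G] (α : MulAut G) (P : Subgroup G) (x : G) :
    x ∈ P.map α.toMonoidHom ↔ α⁻¹ x ∈ P := by
  rw [Subgroup.mem_map]
  constructor
  · rintro ⟨y, hy, rfl⟩
    have : α⁻¹ (α.toMonoidHom y) = y := MulAut.inv_apply_self G α y
    rwa [this]
  · intro h
    exact ⟨α⁻¹ x, h, MulAut.apply_inv_self G α x⟩

theorem KS_inv {G : Type} [Group G] (α : MulAut G) (P : Subgroup G) :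
    P.map α.toMonoidHom = P ↔ ∀ x, x ∈ P ↔ α x ∈ P := by
  constructor
  · intro h x
    have h1 := KS_mem α P (α x)
    rw [h, MulAut.inv_apply_self] at h1
    exact h1.symm
  · intro h
    ext x
    rw [KS_mem, h (α⁻¹ x), MulAut.apply_inv_self]

theorem KS_chain {G : Type} [Group G] [Finite G] (α : MulAut G) (C : Finset (Subgroup G))
    (hC : IsChain (· ≤ ·) (C : Set (Subgroup G))) :
    chainMap α C = C ↔ ∀ P ∈ C, P.map α.toMonoidHom = P := by
  classical
  constructor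
  · intro h P hP
    have h1 : P.map α.toMonoidHom ∈ C := by
      rw [← h]
      unfold chainMap
      exact Finset.mem_image_of_mem _ hP
    have hcard : Nat.card (P.map α.toMonoidHom) = Nat.card P :=
      Nat.card_congr (P.equivMapOfInjective α.toMonoidHom α.injective).symm.toEquiv
    rcases hC.total h1 hP with h2 | h2
    · exact Subgroup.eq_of_le_of_card_ge h2 hcard.ge
    · exact (Subgroup.eq_of_le_of_card_ge h2 hcard.le).symm
  · intro h
    unfold chainMap
    conv_rhs => rw [← Finset.image_id (s := C)]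
    exact Finset.image_congr fun P hP => h P hP

theorem KS_nrm {G : Type} [Group G] (α : MulAut G) (C : Finset (Subgroup G))
    (h : ∀ P ∈ C, ∀ x, x ∈ P ↔ α x ∈ P) (x : G) : x ∈ nrm C ↔ α x ∈ nrm C := by
  have key : ∀ P ∈ C, (x ∈ Subgroup.normalizer (P : Set G) ↔
      α x ∈ Subgroup.normalizer (P : Set G)) := by
    intro P hP
    rw [Subgroup.mem_normalizer_iff, Subgroup.mem_normalizer_iff]
    constructor
    · intro h1 y
      have h2 := h1 (α⁻¹ y)
      rw [h P hP (α⁻¹ y), h P hP (x * α⁻¹ y * x⁻¹), map_mul, map_mul, map_inv,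
        MulAut.apply_inv_self] at h2
      exact h2
    · intro h1 y
      have h2 := h1 (α y)
      rw [h P hP y, h P hP (x * y * x⁻¹), map_mul, map_mul, map_inv]
      exact h2
  unfold nrm
  simp only [Subgroup.mem_iInf]
  exact ⟨fun h1 P hP => (key P hP).mp (h1 P hP), fun h1 P hP => (key P hP).mpr (h1 P hP)⟩

theorem KS_spec {G E A : Type} [Group G] [Group E] [Group A] (X : Extension G E A) (e : E)
    (x y : G) : X.inc y = e * X.inc x * e⁻¹ ↔ y = X.act e x := by
  rw [← X.act_spec]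
  exact ⟨fun h => X.inc_injective h, fun h => by rw [h]⟩

open Classical in
theorem KS_fix (G E A : Type) [Group G] [Finite G] [Group E] [Group A] (X : Extension G E A)
    (C : Finset (Subgroup G)) (hC : IsChain (· ≤ ·) (C : Set (Subgroup G)))
    (ψ : nrm C → ℂ) (ψ' : G → ℂ) (hψ : ∀ g, ψ' g = if h : g ∈ nrm C then ψ ⟨g, h⟩ else 0)
    (e : E) : DD.Fixes X.inc {P | P ∈ C} (nrm C) ψ e ↔ e ∈ X.stab C ψ' := by
  have h0 : e ∈ X.stab C ψ' ↔ chainMap (X.act e) C = C ∧ funMap (X.act e) ψ' = ψ' := Iff.rfl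
  rw [h0, KS_chain _ C hC]
  have h1 : (∀ P ∈ C, P.map (X.act e).toMonoidHom = P) ↔
      ∀ P ∈ C, ∀ x, x ∈ P ↔ X.act e x ∈ P :=
    ⟨fun h P hP => (KS_inv _ P).mp (h P hP), fun h P hP => (KS_inv _ P).mpr (h P hP)⟩
  rw [h1]
  unfold DD.Fixes
  constructor
  · rintro ⟨h2, h3⟩
    have h4 : ∀ P ∈ C, ∀ x, x ∈ P ↔ X.act e x ∈ P := fun P hP x =>
      h2 P hP x (X.act e x) ((KS_spec X e x _).mpr rfl)
    refine ⟨h4, ?_⟩
    funext g
    have h5 := KS_nrm (X.act e) C h4 ((X.act e)⁻¹ g)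
    rw [MulAut.apply_inv_self] at h5
    change ψ' ((X.act e)⁻¹ g) = ψ' g
    rw [hψ, hψ]
    by_cases h6 : g ∈ nrm C
    · rw [dif_pos h6, dif_pos (h5.mpr h6)]
      refine (h3 ⟨_, h5.mpr h6⟩ ⟨g, h6⟩ ((KS_spec X e _ _).mpr ?_)).symm
      exact (MulAut.apply_inv_self G (X.act e) g).symm
    · rw [dif_neg h6, dif_neg fun h => h6 (h5.mp h)]
  · rintro ⟨h2, h3⟩
    refine ⟨?_, ?_⟩
    · intro P hP x y hxy
      rw [(KS_spec X e x y).mp hxy]
      exact h2 P hP x
    · intro x y hxy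
      have h4 := (KS_spec X e x y).mp hxy
      have h5 := congrFun h3 (y : G)
      change ψ' ((X.act e)⁻¹ (y : G)) = ψ' y at h5
      rw [h4, MulAut.inv_apply_self, ← h4, hψ, hψ, dif_pos x.2, dif_pos y.2] at h5
      exact h5.symm

theorem KS : KS_stmt := by
  classical
  intro G E A _ _ _ _ X C hC ψ ψ' hψ
  have h1 : ∀ e : E, DD.Fixes X.inc {P | P ∈ C} (nrm C) ψ e ↔ e ∈ X.stab C ψ' := by
    intro e
    refine KS_fix G E A X C hC ψ ψ' (fun g => ?_) e
    rw [hψ]
  refine ⟨h1, ?_⟩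
  unfold DD.StabIs
  simp only [h1]
  constructor
  · intro h
    rw [eq_top_iff]
    intro a _
    obtain ⟨e, rfl⟩ := X.proj_surjective a
    obtain ⟨g, hg⟩ := (h e).mp (Subgroup.mem_top e)
    refine ⟨e * X.inc g, hg, ?_⟩
    rw [map_mul, (X.exact (X.inc g)).mpr ⟨g, rfl⟩, mul_one]
  · intro h e
    refine ⟨fun _ => ?_, fun _ => Subgroup.mem_top e⟩
    have h2 : X.proj e ∈ (X.stab C ψ').map X.proj := by
      rw [h]
      exact Subgroup.mem_top _
    obtain ⟨s, hs, hse⟩ := h2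
    obtain ⟨g, hg⟩ := (X.exact (e⁻¹ * s)).mp (by rw [map_mul, map_inv, hse, inv_mul_cancel])
    refine ⟨g, ?_⟩
    rw [hg, mul_inv_cancel_left]
    exact hs

end Pool.Agent.helper24.DZ
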